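import Pool.Agent.H88.ZR.Hc
import Pool.Agent.H88.OD.Hd

/-!
Project MP_78d38b_OD: the loop over the base field with primes in a given set (version of Pool/Agent/H88/OD/Hd.lean).
-/

set_option autoImplicit false
set_option linter.unusedSectionVars false
open scoped Classical

open WithZero NumberField IsDedekindDomain H38RT
open H38T1 (SC sc scu rep eo la si OddP)
open H76PP (Cub LC ev scm dn)
open H26OD (Rich)
open H30ZO (Tv Wc)

namespace H88OD

variable {K L : Type} [Field K] [NumberField K] [Field L]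
  [NumberField L] [Algebra K L] {a b : K} {θ : L}

/-- The quotient of `D` and `D0` is a square at the places of `Sg`, positive at the real places and a unit outside
`ZZ`. -/
structure RelZ (K : Type) [Field K] [NumberField K] (Sg : Finset (HeightOneSpectrum (𝓞 K)))
    (ZZ : Set (HeightOneSpectrum (𝓞 K))) (D0 D : K) : Prop where
  rel : Rel K Sg D0 D
  out : ∀ q : HeightOneSpectrum (𝓞 K), q ∉ ZZ → q.valuation K D = q.valuation K D0

theorem RelZ.refl {Sg : Finset (HeightOneSpectrum (𝓞 K))} {ZZ : Set (HeightOneSpectrum (𝓞 K))}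
    {D : K} (hD : D ≠ 0) : RelZ K Sg ZZ D D :=
  ⟨⟨hD, hD, fun v _ => ⟨1, by rw [div_self hD, map_one, mul_one]⟩,
    fun s => by rw [div_self hD, map_one]; exact one_pos⟩, fun _ _ => rfl⟩

theorem even_auxZ (S : Ext K K L a b θ) {ZZ : Set (HeightOneSpectrum (𝓞 K))} (hRi : Rich S ZZ)
    {D0 : K} {Sg0 : Finset (HeightOneSpectrum (𝓞 K))} (k : ℕ) :
    ∀ (D : K) (Sg : Finset (HeightOneSpectrum (𝓞 K))) (V : AddSubgroup (SC L)), S.Ok D Sg →
      Sg0 ⊆ Sg → RelZ K Sg0 ZZ D0 D → (∀ c, c ∈ V ↔ S.V D c) → Nat.card V = 4 ^ k →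
      ∃ D' : K, RelZ K Sg0 ZZ D0 D' ∧ ∀ c, S.V D' c → c = 0 := by
  induction k with
  | zero =>
    intro D Sg V _ _ hrel hV hcard
    refine ⟨D, hrel, fun c hc => ?_⟩
    rw [pow_zero] at hcard
    have h1 := (Nat.card_eq_one_iff_unique.1 hcard).1
    have h2 : (⟨c, (hV c).2 hc⟩ : V) = 0 := Subsingleton.elim _ _
    exact congrArg Subtype.val h2
  | succ k ih =>
    intro D Sg V hok hle hrel hV hcard
    have h4 : 4 ≤ Nat.card V := by
      rw [hcard, pow_succ]
      exact Nat.le_mul_of_pos_left 4 (by positivity)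
    obtain ⟨φ1, φ2, ⟨x, hx, x1, x2⟩, ⟨y, hy, y1, y2⟩, hVV⟩ :=
      exists_two (fun c : SC L => by rw [← two_nsmul, H38T1.SC.two_smul]) V h4
    obtain ⟨T, ε, hTZ, hε, hok', hst⟩ := step_evenZ hRi hok φ1 φ2 ⟨x, (hV x).1 hx, x1, x2⟩
      ⟨y, (hV y).1 hy, y1, y2⟩
    obtain ⟨V', hV'⟩ := exists_VG S hok'.ne
    have hrel' : RelZ K Sg0 ZZ D0 (D * ε) := by
      refine ⟨relT hle hrel.rel hε, fun q hq => ?_⟩
      rw [map_mul, hε.out q (fun h => hq (hTZ q h)), mul_one]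
      exact hrel.out q hq
    refine ih (D * ε) (T ∪ Sg) V' hok' (hle.trans Finset.subset_union_right) hrel' hV' ?_
    have h5 := hVV V' (fun c => by rw [hV', hst, hV])
    rw [hcard, pow_succ, mul_comm] at h5
    exact (Nat.eq_of_mul_eq_mul_left (by norm_num) h5).symm

theorem even_loopZ (S : Ext K K L a b θ) {ZZ : Set (HeightOneSpectrum (𝓞 K))} (hRi : Rich S ZZ)
    {D0 : K} (hD0 : D0 ≠ 0) {k : ℕ} (hk : Nat.card {c : SC L // S.V D0 c} = 4 ^ k)
    (Sg : Finset (HeightOneSpectrum (𝓞 K))) :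
    ∃ D : K, RelZ K Sg ZZ D0 D ∧ Tv K (D ^ 2 * a) (D ^ 3 * b) := by
  obtain ⟨Sg', hle, hok⟩ := exists_ok S hD0 Sg
  obtain ⟨V, hV⟩ := exists_VG S hD0
  have hcard : Nat.card V = 4 ^ k := by
    rw [← hk]
    exact Nat.card_congr (Equiv.subtypeEquivRight hV)
  obtain ⟨D, hrel, hD⟩ := even_auxZ S hRi k D0 Sg' V hok hle (RelZ.refl hD0) hV hcard
  have h := tv_between S hrel.rel.n1 hD K
  exact ⟨D, hrel, h⟩

end H88OD
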