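import Pool.Agent.H88.ZR.Hd
import Pool.Agent.H88.OD.Fe
import Pool.Agent.H26.OD.Qg

/-!
Project MP_78d38b_OD: the main theorem with primes in a given set.
-/

set_option autoImplicit false
set_option linter.unusedSectionVars false
open scoped Classical

open WithZero NumberField IsDedekindDomain H38RT
open H38T1 (SC sc scu rep eo la si OddP)
open H76PP (Cub LC ev scm dn SelTriv Tf_twist)
open H30ZO (Tv Wc)
open H26OD (Rich)

namespace H88OD

variable {K : Type} [Field K] [NumberField K] {a b : K}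

theorem RelZ.trans {Sg : Finset (HeightOneSpectrum (𝓞 K))} {ZZ : Set (HeightOneSpectrum (𝓞 K))}
    {D0 D1 D : K} (h : RelZ K Sg ZZ D0 D1) (h' : RelZ K Sg ZZ D1 D) : RelZ K Sg ZZ D0 D :=
  ⟨h.rel.trans h'.rel, fun q hq => (h'.out q hq).trans (h.out q hq)⟩

/-- **The main theorem** with primes in the set `ZZ`. -/
theorem main_evenZ {F L : Type} [Field F] [NumberField F] [Field L] [NumberField L] [Algebra K F]
    [Algebra F L] {θ : L} (S : Ext K F L a b θ) {ZZ : Set (HeightOneSpectrum (𝓞 K))}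
    (hF : Rich S ZZ) {L0 : Type} [Field L0] [NumberField L0] [Algebra K L0] {θ0 : L0}
    (S0 : Ext K K L0 a b θ0) (h0 : Rich S0 ZZ) {D0 : K} (hD0 : D0 ≠ 0) {k : ℕ}
    (hk : selCard K (D0 ^ 2 * a) (D0 ^ 3 * b) = 4 ^ k)
    (Sg X : Finset (HeightOneSpectrum (𝓞 K))) :
    ∃ D : K, RelZ K Sg ZZ D0 D ∧ (∀ c, S.V D c → c = 0) ∧
      ∃ q : HeightOneSpectrum (𝓞 K), q ∉ X ∧ Odd (ord (q.valuation K) D) := by
  rw [← card_V S0 hD0] at hk
  obtain ⟨D1, h1, h2⟩ := even_loopZ S0 h0 hD0 hk Sg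
  obtain ⟨Sg', hle, hok⟩ := exists_ok S h1.rel.n1 Sg
  obtain ⟨δ, hδ0, hδsq, hδpos, hδout, ⟨u, hu, huX, hodd'⟩, hV⟩ :=
    H26OD.exists_twistZ hok hF (fix_zero S h1.rel.n1 h2) X
  have e : D1 * δ / D1 = δ := mul_div_cancel_left₀ _ h1.rel.n1
  have hrel : RelZ K Sg ZZ D1 (D1 * δ) := by
    refine ⟨⟨h1.rel.n1, mul_ne_zero h1.rel.n1 hδ0, fun v hv => ?_, fun s => ?_⟩, fun q hq => ?_⟩
    · rw [e]
      exact hδsq v (hle hv)
    · rw [e]
      exact hδpos s
    · rw [map_mul, hδout q hq, mul_one]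
  refine ⟨D1 * δ, h1.trans hrel, hV, u, huX, ?_⟩
  have h3 : ord (u.valuation K) D1 = 0 := by
    unfold ord
    rw [hok.val u hu, log_one, neg_zero]
  rw [ord_mul h1.rel.n1 hδ0, h3, zero_add]
  exact hodd'

end H88OD
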