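import Pool.Agent.H88.ZR.Fe
import Pool.Agent.H26.OD.Nd
import Pool.Agent.H38.OD.Nc
import Pool.Agent.H30.PN.Fi

/-!
Project MP_78d38b_OD: the main theorem for extensions with a normal Sylow 2-subgroup.
-/

set_option autoImplicit false
set_option linter.unusedSectionVars false
open scoped Classical

open WithZero NumberField IsDedekindDomain H38RT
open H38T1 (SC sc scu rep eo la si OddP)
open H76PP (Cub LC ev scm dn SelTriv Tf_twist)
open H30ZO (Tv Wc)
open H26OD (Rich Zs)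
open H36CY (Stb DescAt)

namespace H88OD

/-- Places with the same valuation are equal. -/
theorem place_eq {N : Type} [Field N] [NumberField N] {W W' : HeightOneSpectrum (𝓞 N)}
    (h : ∀ x : N, W.valuation N x = W'.valuation N x) : W = W' := by
  apply HeightOneSpectrum.ext
  ext x
  rw [← W.valuation_lt_one_iff_mem (K := N), ← W'.valuation_lt_one_iff_mem (K := N), h]

theorem stb_smul {K N : Type} [Field K] [NumberField K] [Field N] [NumberField N] [Algebra K N]
    {W : HeightOneSpectrum (𝓞 N)} {g : N ≃ₐ[K] N} (h : Stb K W g) : gq g • W = W := by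
  refine place_eq fun x => ?_
  obtain ⟨y, rfl⟩ := g.surjective x
  have h1 := H24TD.val_smul (gq g) W y
  rw [gq_apply] at h1
  rw [h1, h y]

variable {K : Type} [Field K] [NumberField K] {a b : K}

/-- **The main theorem** for extensions with a normal Sylow 2-subgroup. -/
theorem main_N {F N : Type} [Field F] [NumberField F] [Field N] [NumberField N] [Algebra K F]
    [Algebra F N] [Algebra K N] [IsScalarTower K F N] [hgN : IsGalois K N] [hgF : IsGalois K F]
    [hgFN : IsGalois F N] (hodd : Odd (Module.finrank K F)) {r : ℕ}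
    (hr : Module.finrank F N = 2 ^ r)
    (ha : ∀ v : HeightOneSpectrum (𝓞 K), v.valuation K a ≤ 1)
    (hb : ∀ v : HeightOneSpectrum (𝓞 K), v.valuation K b ≤ 1)
    (hir : ∀ t : K, t ^ 3 + a * t + b ≠ 0) (hD : 4 * a ^ 3 + 27 * b ^ 2 ≠ 0)
    (hsq : ¬ IsSquare (algebraMap K N (-(4 * a ^ 3 + 27 * b ^ 2)))) {D0 : K} (hD0 : D0 ≠ 0)
    {k : ℕ} (hk : selCard K (D0 ^ 2 * a) (D0 ^ 3 * b) = 4 ^ k) (hreal : H30ZO.RealAt K N a b)
    (hdesc : ∀ v, DescAt K N v (D0 ^ 2 * a) (D0 ^ 3 * b))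
    (Sg X : Finset (HeightOneSpectrum (𝓞 K))) :
    ∃ D : K, Rel K Sg D0 D ∧ (∀ (M : Type) [Field M] [NumberField M] [Algebra K M] [Algebra M N]
      [IsScalarTower K M N], Tv M (algebraMap K M (D ^ 2 * a)) (algebraMap K M (D ^ 3 * b))) ∧
      ∃ q : HeightOneSpectrum (𝓞 K), q ∉ X ∧ Odd (ord (q.valuation K) D) := by
  have hsqK : ¬ IsSquare (-(4 * a ^ 3 + 27 * b ^ 2)) := fun h => hsq (h.map (algebraMap K N))
  obtain ⟨L, _, _, _, θ, ⟨S⟩⟩ := exists_ext hodd ha hb hD hir hsqK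
  obtain ⟨L0, _, _, _, θ0, ⟨S0⟩⟩ := exists_self ha hb hir hD hsqK
  have hF : Rich S (Zs K N) := H26OD.rich_N S N hsq
  have h0 : Rich S0 (Zs K N) := H26OD.rich_N S0 N hsq
  obtain ⟨Sg', hle, hok⟩ := exists_ok S hD0 Sg
  obtain ⟨Sr, hSr⟩ : ∃ Sr : Finset (HeightOneSpectrum (𝓞 K)), ∀ V : HeightOneSpectrum (𝓞 N),
      H73P2.Ram K V → dn K V ∈ Sr := by
    refine ⟨((H30PN.ram_fin K N).image (dn K)).toFinset, fun V hV => ?_⟩
    rw [Set.Finite.mem_toFinset]
    exact ⟨V, hV, rfl⟩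
  obtain ⟨D, hrel, hV, hq⟩ := main_evenZ S hF S0 h0 hD0 hk (Sg' ∪ Sr) X
  have hδ0 : D / D0 ≠ 0 := div_ne_zero hrel.rel.n1 hD0
  have hDδ : D0 * (D / D0) = D := mul_div_cancel₀ _ hD0
  have htv : Tv F (algebraMap K F ((D0 * (D / D0)) ^ 2 * a))
      (algebraMap K F ((D0 * (D / D0)) ^ 3 * b)) := by
    rw [hDδ]
    exact tv_between S hrel.rel.n1 hV F
  refine ⟨D, ⟨hrel.rel.n0, hrel.rel.n1, fun v hv => hrel.rel.sq v (Finset.mem_union_left _ (hle hv)),
    hrel.rel.pos⟩, fun M _ _ _ _ _ => ?_, hq⟩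
  have h := H38OD.up_N (K := K) (F := F) (N := N) (M := M) hodd hr ha hb hD hD0 hδ0
    (Sg := Sg' ∪ Sr)
    (fun v hv => hok.two v fun h => hv (Finset.mem_union_left _ h))
    (fun v hv => hok.dis v fun h => hv (Finset.mem_union_left _ h))
    (fun v hv => hok.val v fun h => hv (Finset.mem_union_left _ h))
    (fun V hV h => hV (Finset.mem_union_right _ (hSr V h)))
    (fun v hv => hrel.rel.sq v hv)
    (fun v _ hv W hW g hg => by
      have hz : v ∈ Zs K N := by
        by_contra hz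
        apply hv
        rw [map_div₀, hrel.out v hz]
        exact div_self ((Valuation.ne_zero_iff _).2 hD0)
      exact hz W hW g (stb_smul hg))
    hreal (fun v _ => hdesc v) htv
  rwa [hDδ] at h

end H88OD
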