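import Pool.Agent.H88.ZR.Pa

/-!
Project MP_78d38b_OD: the converse of the main theorem.
-/

set_option autoImplicit false
set_option linter.unusedSectionVars false
open scoped Classical

open WithZero NumberField IsDedekindDomain H38RT
open H38T1 (SC sc scu rep eo la si OddP)
open H76PP (Cub LC ev scm dn SelTriv Tf_twist)
open H30ZO (Tv Wc RealAt)
open H26OD (Rich Zs Pk dd3)
open H36CY (Stb DescAt)

namespace H88OD

variable {K N : Type} [Field K] [NumberField K] [Field N] [NumberField N] [Algebra K N]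

/-- The two-primary parts are trivial over all number fields between `K` and `N`. -/
def TvN (K N : Type) [Field K] [NumberField K] [Field N] [NumberField N] [Algebra K N]
    (a b D : K) : Prop :=
  ∀ (M : Type) [Field M] [NumberField M] [Algebra K M] [Algebra M N] [IsScalarTower K M N],
    Tv M (algebraMap K M (D ^ 2 * a)) (algebraMap K M (D ^ 3 * b))

theorem ev_of_TvN {a b : 𝓞 K} (hir : ∀ t : K, t ^ 3 + (a : K) * t + (b : K) ≠ 0)
    (hsq : ¬ IsSquare (dd3 (a : K) (b : K))) {D : K} (hD : D ≠ 0)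
    (h : TvN K N (a : K) (b : K) D) : Ev (a : K) (b : K) D := by
  have hne : 4 * (a : K) ^ 3 + 27 * (b : K) ^ 2 ≠ 0 := by
    intro h
    apply hsq
    unfold dd3
    rw [h, neg_zero]
    exact ⟨0, (mul_zero 0).symm⟩
  refine ⟨0, ?_⟩
  rw [pow_zero]
  exact selCard_of_Tv (fun v => v.valuation_le_one a) (fun v => v.valuation_le_one b) hir hne hsq hD
    (h K)

/-- A finite set of primes which contains the bad ones of all curves. -/
theorem exists_S0 [IsGalois K N] {ι : Type} [Fintype ι] {a b : ι → 𝓞 K}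
    (hir : ∀ (j : ι) (t : K), t ^ 3 + (a j : K) * t + (b j : K) ≠ 0)
    (hsq : ∀ j, ¬ IsSquare (algebraMap K N (dd3 (a j : K) (b j : K))))
    {D0 : K} (hD0 : D0 ≠ 0) :
    ∃ S0 : Finset (HeightOneSpectrum (𝓞 K)), ∀ D, Rel K S0 D0 D →
      ∀ j, TvN K N (a j : K) (b j : K) D → RealAt K N (a j : K) (b j : K) ∧
        (∀ v, DescAt K N v (D0 ^ 2 * (a j : K)) (D0 ^ 3 * (b j : K))) ∧
        Ev (a j : K) (b j : K) D0 := by
  have hsqK : ∀ j, ¬ IsSquare (dd3 (a j : K) (b j : K)) := fun j h => hsq j (h.map (algebraMap K N))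
  have hne : ∀ j, 4 * (a j : K) ^ 3 + 27 * (b j : K) ^ 2 ≠ 0 := by
    intro j h
    apply hsqK j
    unfold dd3
    rw [h, neg_zero]
    exact ⟨0, (mul_zero 0).symm⟩
  have hoddK : Odd (Module.finrank K K) := by
    rw [Module.finrank_self]
    exact odd_one
  have p0 : ∀ j, Pk K K (a j : K) (b j : K) := fun j =>
    (H26OD.exists_pk hoddK (a j) (b j) (hir j) (hsqK j)).some
  obtain ⟨Sg1, -, hok⟩ := H26OD.ok_all p0 hD0 ∅
  obtain ⟨Sr, hSr⟩ : ∃ Sr : Finset (HeightOneSpectrum (𝓞 K)), ∀ V : HeightOneSpectrum (𝓞 N),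
      H73P2.Ram K V → dn K V ∈ Sr := by
    refine ⟨((H30PN.ram_fin K N).image (dn K)).toFinset, fun V hV => ?_⟩
    rw [Set.Finite.mem_toFinset]
    exact ⟨V, hV, rfl⟩
  refine ⟨Sg1 ∪ Sr, fun D hrel j htv => ?_⟩
  obtain ⟨h1, h2⟩ := H38OD.desc_of_rel (N := N) (Sg := Sg1 ∪ Sr) (fun v => v.valuation_le_one (a j))
    (fun v => v.valuation_le_one (b j)) (hne j) hrel fun M _ => htv M
  refine ⟨h2, fun v => ?_, ?_⟩
  · by_cases hv : v ∈ Sg1 ∪ Sr
    · exact h1 v hv
    · refine H38OD.descAt_good_tw ((hok j).two v fun h => hv (Finset.mem_union_left _ h)) ?_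
        (v.valuation_le_one (a j)) (v.valuation_le_one (b j))
        ((hok j).dis v fun h => hv (Finset.mem_union_left _ h)) hD0
        ((hok j).val v fun h => hv (Finset.mem_union_left _ h)) (H26OD.noroot_N (hir j) (hsq j))
      intro V hV hR
      exact hv (Finset.mem_union_right _ (hV ▸ hSr V hR))
  · refine (par_tw (p0 j).S (hok j) ⟨hD0, hrel.n1, fun v hv => hrel.sq v
      (Finset.mem_union_left _ hv), hrel.pos⟩).2 (ev_of_TvN (hir j) (hsqK j) hrel.n1 htv)

end H88OD
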