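import Pool.Agent.H88.OD.Gr
import Pool.Agent.H88.OD.Gb
import Pool.Agent.H88.OD.Ch
import Pool.Agent.H26.OD.Ri

/-!
Project MP_78d38b_OD: the next special prime in a given set of primes (version of Pool/Agent/H88/OD/Gn.lean).
-/

set_option autoImplicit false
set_option linter.unusedSectionVars false
open scoped Classical

open WithZero NumberField IsDedekindDomain H38RT
open H38T1 (SC sc scu rep eo la si OddP)
open H76PP (Cub LC ev scm dn)
open H26OD (Rich)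

namespace H88OD

variable {K F L : Type} [Field K] [NumberField K] [Field F] [NumberField F] [Field L]
  [NumberField L] [Algebra K F] [Algebra F L] {a b : K} {θ : L} {S : Ext K F L a b θ}
  {Sg : Finset (HeightOneSpectrum (𝓞 K))}

/-- The modified functional. -/
private noncomputable def GnZ_fun (φ : SC L →+ ZMod 2) (T : Finset (Sp S Sg))
    (a' : Sp S Sg → RG (F ≃ₐ[K] F)) : SC L →+ ZMod 2 where
  toFun x := φ x + ∑ P' ∈ T, (P'.tr x * a' P').coeff 1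
  map_zero' := by
    have h : ∀ P' : Sp S Sg, P'.tr (0 : SC L) = 0 := by
      intro P'
      have h := P'.tr_add 0 0
      rw [add_zero] at h
      exact left_eq_add.mp h
    rw [map_zero, zero_add]
    refine Finset.sum_eq_zero fun P' _ => ?_
    rw [h, zero_mul]
    rfl
  map_add' x y := by
    rw [map_add, add_add_add_comm, ← Finset.sum_add_distrib]
    congr 1
    refine Finset.sum_congr rfl fun P' _ => ?_
    rw [P'.tr_add, add_mul, MonoidAlgebra.coeff_add, Finsupp.add_apply]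

private lemma GnZ_el (φ : SC L →+ ZMod 2) (T : Finset (Sp S Sg))
    (a' : Sp S Sg → RG (F ≃ₐ[K] F)) (x : SC L) :
    S.el (GnZ_fun φ T a') x = S.el φ x + ∑ P' ∈ T, P'.tr x * a' P' := by
  refine rg_ext fun g => ?_
  rw [MonoidAlgebra.coeff_add, Finsupp.add_apply]
  have h : (∑ P' ∈ T, P'.tr x * a' P').coeff g = ∑ P' ∈ T, (P'.tr x * a' P').coeff g := by
    rw [MonoidAlgebra.coeff_sum, Finsupp.finsetSum_apply]
  rw [h]
  change φ (S.ρ g⁻¹ • x) + ∑ P' ∈ T, (P'.tr (S.ρ g⁻¹ • x) * a' P').coeff 1 = φ (S.ρ g⁻¹ • x) + _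
  congr 1
  refine Finset.sum_congr rfl fun P' _ => ?_
  rw [P'.tr_smul, mul_assoc, coeff_single_mul, inv_inv, mul_one]

theorem exists_spZ (S : Ext K F L a b θ) {ZZ : Set (HeightOneSpectrum (𝓞 K))} (hR : Rich S ZZ)
    (Sg : Finset (HeightOneSpectrum (𝓞 K)))
    (X : Finset (HeightOneSpectrum (𝓞 K))) (Z : AddSubgroup (SC L)) (hfin : Finite Z)
    (hZ : ∀ c ∈ Z, c ∈ H30ZO.HH F L) (hG : ∀ (g : F ≃ₐ[K] F), ∀ c ∈ Z, S.ρ g • c ∈ Z)
    (φ : SC L →+ ZMod 2) :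
    ∃ P : Sp S Sg, P.q ∈ ZZ ∧ P.q ∉ X ∧ ∀ c ∈ Z, P.tr c = 0 ∧ P.fl c = S.el φ c := by
  have hZf : (Z : Set (SC L)).Finite := Set.toFinite _
  have hA : ((X : Set (HeightOneSpectrum (𝓞 K))) ∪ ⋃ c ∈ (Z : Set (SC L)),
      (fun w : HeightOneSpectrum (𝓞 L) => dn K (dn F w)) '' {w | eo w c ≠ 0}).Finite :=
    X.finite_toSet.union (hZf.biUnion fun c _ => (fin_supp c).image _)
  obtain ⟨P, hPZ, hP, hla⟩ := hR Sg (Z : Set (SC L)) hZf (fun c hc => hZ c hc) φ _ hA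
  have hPX : P.q ∉ X := fun h => hP (Or.inl h)
  have heo : ∀ c ∈ Z, eo P.t2 c = 0 := by
    intro c hc
    by_contra h
    refine hP (Or.inr (Set.mem_biUnion (show c ∈ (Z : Set (SC L)) from hc) ⟨P.t2, h, ?_⟩))
    change dn K (dn F P.t2) = dn K P.v
    rw [P.tw.dn2]
  refine ⟨P, hPZ, hPX, fun c hc => ⟨?_, ?_⟩⟩
  · refine rg_ext fun g => ?_
    change eo P.t2 (S.ρ g⁻¹ • c) = 0
    exact heo _ (hG _ c hc)
  · refine rg_ext fun g => ?_
    change la P.t1 (S.ρ g⁻¹ • c) + P.nu * eo P.t2 (S.ρ g⁻¹ • c) = φ (S.ρ g⁻¹ • c)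
    rw [heo _ (hG _ c hc), mul_zero, add_zero]
    exact hla _ (hG _ c hc)

theorem exists_nextZ {ZZ : Set (HeightOneSpectrum (𝓞 K))} (hRi : Rich S ZZ) {D : K} (hok : S.Ok D Sg) {Tr : Finset (HeightOneSpectrum (𝓞 K))}
    {k : Sp S Sg → Sp S Sg} {y : Sp S Sg → SC L} (hR : RefD S Sg Tr k y) (φ : SC L →+ ZMod 2)
    (X : Finset (HeightOneSpectrum (𝓞 K))) (T : Finset (Sp S Sg))
    (hinj : ∀ P ∈ T, ∀ P' ∈ T, P.q = P'.q → P = P') (hT : ∀ P ∈ T, P.q ∉ Tr)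
    (u : Sp S Sg → RG (F ≃ₐ[K] F)) :
    ∃ P : Sp S Sg, P.q ∈ ZZ ∧ P.q ∉ X ∧ P.q ∉ Tr ∧ (∀ P' ∈ T, P'.q ≠ P.q) ∧
      (∀ c, S.V D c → P.fl c = S.el φ c) ∧ ∀ P' ∈ T, P.fl (y P') = u P' := by
  obtain ⟨W, hWf, hW⟩ := exists_YG S hok.ne Sg (Tr ∪ T.image Sp.q)
  have hVW : ∀ c, S.V D c → c ∈ W := fun c hc => by
    have h := (V_iff_Y S hok).1 hc
    exact (hW c).2 ⟨h.hh, h.fin, h.inf, fun w h1 _ => h.ev w h1 (by simp)⟩
  have hyW : ∀ P' ∈ T, y P' ∈ W := fun P' hP' => by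
    refine (hW _).2 (Y_of_triv S hok.ne (hR.hh P' (hT P' hP')) (hR.triv P' (hT P' hP')) ?_)
    intro w _ h2
    refine hR.ev P' (hT P' hP') w ?_ ?_
    · intro e
      exact h2 (e ▸ Finset.mem_union_right _ (Finset.mem_image_of_mem _ hP'))
    · intro e
      exact h2 (e ▸ Finset.mem_union_left _ (hR.kq P'))
  obtain ⟨P, hPZ, hPX, hP⟩ := exists_spZ S hRi Sg (X ∪ Tr ∪ T.image Sp.q) W hWf
    (fun c hc => ((hW c).1 hc).hh) (fun g c hc => (hW _).2 (Y_smul S g ((hW c).1 hc)))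
    (GnZ_fun φ T fun P' => u P' + S.el φ (y P'))
  rw [Finset.mem_union, Finset.mem_union, not_or, not_or] at hPX
  refine ⟨P, hPZ, hPX.1.1, hPX.1.2, ?_, ?_, ?_⟩
  · intro P' hP' e
    exact hPX.2 (e ▸ Finset.mem_image_of_mem _ hP')
  · intro c hc
    rw [(hP c (hVW c hc)).2, GnZ_el]
    rw [Finset.sum_eq_zero, add_zero]
    intro P' _
    have h := (V_iff_Y S hok).1 hc
    have h0 : P'.tr c = 0 := (P'.tr_zero hok.two hc.hh).2 fun w hw =>
      h.ev w (by rw [hw]; exact P'.out) (by simp)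
    rw [h0, zero_mul]
  · intro P' hP'
    rw [(hP _ (hyW P' hP')).2, GnZ_el]
    rw [Finset.sum_eq_single_of_mem P' hP']
    · rw [hR.tr1 P' (hT P' hP'), one_mul, add_comm (u P'), ← add_assoc, rg_two, zero_add]
    · intro P'' hP'' hne
      have h0 : P''.tr (y P') = 0 := by
        refine (P''.tr_zero hok.two (hR.hh P' (hT P' hP'))).2 fun w hw => ?_
        refine hR.ev P' (hT P' hP') w ?_ ?_
        · intro e
          exact hne (hinj P'' hP'' P' hP' (hw.symm.trans e))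
        · intro e
          exact hT P'' hP'' (by rw [← hw, e]; exact hR.kq P')
      rw [h0, zero_mul]

end H88OD
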