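import Pool.Agent.H88.OD.Hb
import Pool.Agent.H88.ZR.Gn

/-!
Project MP_78d38b_OD: two pairs of special primes in a given set of primes (version of Pool/Agent/H88/OD/Hb.lean).
-/

set_option autoImplicit false
set_option linter.unusedSectionVars false
open scoped Classical

open WithZero NumberField IsDedekindDomain H38RT
open H38T1 (SC sc scu rep eo la si OddP)
open H76PP (Cub LC ev scm dn)
open H26OD (Rich)

namespace H88OD

variable {K L : Type} [Field K] [NumberField K] [Field L]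
  [NumberField L] [Algebra K L] {a b : K} {θ : L} {S : Ext K K L a b θ}
  {Sg : Finset (HeightOneSpectrum (𝓞 K))}

/-- A chain of `n` pairs of special primes. -/
structure HbZChain (S : Ext K K L a b θ) (D : K) (ZZ : Set (HeightOneSpectrum (𝓞 K)))
    (Sg Tr X : Finset (HeightOneSpectrum (𝓞 K)))
    (k : Sp S Sg → Sp S Sg) (y : Sp S Sg → SC L) (φ1 φ2 : SC L →+ ZMod 2) (n : ℕ)
    (p s : ℕ → Sp S Sg) : Prop where
  pX : ∀ i < n, (p i).q ∈ ZZ ∧ (p i).q ∉ X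
  sX : ∀ i < n, (s i).q ∈ ZZ ∧ (s i).q ∉ X
  pT : ∀ i < n, (p i).q ∉ Tr
  sT : ∀ i < n, (s i).q ∉ Tr
  ps : ∀ i < n, (p i).q ≠ (s i).q
  pV : ∀ i < n, ∀ c, S.V D c → (p i).fl c = S.el φ1 c
  sV : ∀ i < n, ∀ c, S.V D c → (s i).fl c = S.el φ2 c
  s0 : ∀ i < n, (s i).fl (y (p i)) = 0
  pp : ∀ i j, i < j → j < n → (p i).q ≠ (p j).q
  psj : ∀ i j, i < j → j < n → (p i).q ≠ (s j).q
  sp : ∀ i j, i < j → j < n → (s i).q ≠ (p j).q
  ss : ∀ i j, i < j → j < n → (s i).q ≠ (s j).q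
  p0 : ∀ i j, i < j → j < n → (p j).fl (y (s i)) = 0
  sj : ∀ i j, i < j → j < n →
    (s j).fl (y (p i)) = 1 + (k (s i)).fl (y (p i)) + (k (p i)).fl (y (s i))

lemma HbZ_chain {ZZ : Set (HeightOneSpectrum (𝓞 K))} (hRi : Rich S ZZ) {D : K} (hok : S.Ok D Sg) {Tr : Finset (HeightOneSpectrum (𝓞 K))}
    {k : Sp S Sg → Sp S Sg} {y : Sp S Sg → SC L} (hR : RefD S Sg Tr k y)
    (X : Finset (HeightOneSpectrum (𝓞 K))) (φ1 φ2 : SC L →+ ZMod 2) (n : ℕ) :
    ∃ p s : ℕ → Sp S Sg, HbZChain S D ZZ Sg Tr X k y φ1 φ2 n p s := by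
  induction n with
  | zero =>
    obtain ⟨P, -⟩ := exists_nextZ hRi hok hR φ1 X ∅ (by simp) (by simp) 0
    exact ⟨fun _ => P, fun _ => P, by constructor <;> intros <;> omega⟩
  | succ n ih =>
    obtain ⟨p, s, h⟩ := ih
    obtain ⟨T, hT⟩ : ∃ T : Finset (Sp S Sg), ∀ P, P ∈ T ↔ ∃ i < n, P = p i ∨ P = s i := by
      refine ⟨(Finset.range n).image p ∪ (Finset.range n).image s, fun P => ?_⟩
      rw [Finset.mem_union, Finset.mem_image, Finset.mem_image]
      constructor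
      · rintro (⟨i, hi, e⟩ | ⟨i, hi, e⟩)
        · exact ⟨i, Finset.mem_range.1 hi, Or.inl e.symm⟩
        · exact ⟨i, Finset.mem_range.1 hi, Or.inr e.symm⟩
      · rintro ⟨i, hi, e | e⟩
        · exact Or.inl ⟨i, Finset.mem_range.2 hi, e.symm⟩
        · exact Or.inr ⟨i, Finset.mem_range.2 hi, e.symm⟩
    have hTTr : ∀ P ∈ T, P.q ∉ Tr := by
      intro P hP
      obtain ⟨i, hi, e | e⟩ := (hT P).1 hP
      · rw [e]
        exact h.pT i hi
      · rw [e]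
        exact h.sT i hi
    obtain ⟨p', qz, q1, q2, q3, q4, q5⟩ := exists_nextZ hRi hok hR φ1 X T
      (fun P _ P' _ e => Sp_eq e) hTTr 0
    obtain ⟨u, hu⟩ : ∃ u : Sp S Sg → RG (K ≃ₐ[K] K), u p' = 0 ∧ ∀ i < n,
        u (p i) = 1 + (k (s i)).fl (y (p i)) + (k (p i)).fl (y (s i)) := by
      refine ⟨fun P => if hh : ∃ i, i < n ∧ P = p i then
        1 + (k (s hh.choose)).fl (y P) + (k P).fl (y (s hh.choose)) else 0, ?_, ?_⟩
      · refine dif_neg ?_
        rintro ⟨i, hi, e⟩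
        exact q3 (p i) ((hT _).2 ⟨i, hi, Or.inl rfl⟩) (congrArg Sp.q e).symm
      · intro i hi
        have hh : ∃ j, j < n ∧ p i = p j := ⟨i, hi, rfl⟩
        have h1 : hh.choose = i := by
          obtain ⟨h2, h3⟩ := hh.choose_spec
          by_contra h4
          rcases lt_or_gt_of_ne h4 with h5 | h5
          · exact h.pp _ _ h5 hi (congrArg Sp.q h3).symm
          · exact h.pp _ _ h5 h2 (congrArg Sp.q h3)
        change (if hh : ∃ j, j < n ∧ p i = p j then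
          1 + (k (s hh.choose)).fl (y (p i)) + (k (p i)).fl (y (s hh.choose)) else 0) = _
        rw [dif_pos hh, h1]
    obtain ⟨s', rz, r1, r2, r3, r4, r5⟩ := exists_nextZ hRi hok hR φ2 X (insert p' T)
      (fun P _ P' _ e => Sp_eq e) (by
        intro P hP
        rw [Finset.mem_insert] at hP
        rcases hP with e | hP
        · rw [e]
          exact q2
        · exact hTTr P hP) u
    have mp : ∀ i < n, p i ∈ T := fun i hi => (hT _).2 ⟨i, hi, Or.inl rfl⟩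
    have ms : ∀ i < n, s i ∈ T := fun i hi => (hT _).2 ⟨i, hi, Or.inr rfl⟩
    have mp' : ∀ i < n, p i ∈ insert p' T := fun i hi => Finset.mem_insert_of_mem (mp i hi)
    have ms' : ∀ i < n, s i ∈ insert p' T := fun i hi => Finset.mem_insert_of_mem (ms i hi)
    refine ⟨fun i => if i < n then p i else p', fun i => if i < n then s i else s', ?_⟩
    have e1 : ∀ i < n, (if i < n then p i else p') = p i := fun i hi => if_pos hi
    have e2 : ∀ i < n, (if i < n then s i else s') = s i := fun i hi => if_pos hi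
    have e3 : (if n < n then p n else p') = p' := if_neg (lt_irrefl n)
    have e4 : (if n < n then s n else s') = s' := if_neg (lt_irrefl n)
    have c1 : ∀ Q : ℕ → Prop, (∀ i < n, Q i) → Q n → ∀ i < n + 1, Q i := by
      intro Q h1 h2 i hi
      rcases Nat.lt_succ_iff_lt_or_eq.1 hi with h3 | h3
      · exact h1 i h3
      · rw [h3]
        exact h2
    have c2 : ∀ Q : ℕ → ℕ → Prop, (∀ i j, i < j → j < n → Q i j) → (∀ i < n, Q i n) →
        ∀ i j, i < j → j < n + 1 → Q i j := by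
      intro Q h1 h2 i j hij hj
      rcases Nat.lt_succ_iff_lt_or_eq.1 hj with h3 | h3
      · exact h1 i j hij h3
      · rw [h3] at hij ⊢
        exact h2 i hij
    constructor
    · exact c1 _ (fun i hi => by rw [e1 i hi]; exact h.pX i hi) (by rw [e3]; exact ⟨qz, q1⟩)
    · exact c1 _ (fun i hi => by rw [e2 i hi]; exact h.sX i hi) (by rw [e4]; exact ⟨rz, r1⟩)
    · exact c1 _ (fun i hi => by rw [e1 i hi]; exact h.pT i hi) (by rw [e3]; exact q2)
    · exact c1 _ (fun i hi => by rw [e2 i hi]; exact h.sT i hi) (by rw [e4]; exact r2)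
    · exact c1 _ (fun i hi => by rw [e1 i hi, e2 i hi]; exact h.ps i hi) (by
        rw [e3, e4]; exact r3 _ (Finset.mem_insert_self _ _))
    · exact c1 _ (fun i hi => by rw [e1 i hi]; exact h.pV i hi) (by rw [e3]; exact q4)
    · exact c1 _ (fun i hi => by rw [e2 i hi]; exact h.sV i hi) (by rw [e4]; exact r4)
    · exact c1 _ (fun i hi => by rw [e1 i hi, e2 i hi]; exact h.s0 i hi) (by
        rw [e3, e4, r5 _ (Finset.mem_insert_self _ _)]; exact hu.1)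
    · exact c2 _ (fun i j hij hj => by
        rw [e1 i (hij.trans hj), e1 j hj]; exact h.pp i j hij hj) (fun i hi => by
        rw [e1 i hi, e3]; exact q3 _ (mp i hi))
    · exact c2 _ (fun i j hij hj => by
        rw [e1 i (hij.trans hj), e2 j hj]; exact h.psj i j hij hj) (fun i hi => by
        rw [e1 i hi, e4]; exact r3 _ (mp' i hi))
    · exact c2 _ (fun i j hij hj => by
        rw [e2 i (hij.trans hj), e1 j hj]; exact h.sp i j hij hj) (fun i hi => by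
        rw [e2 i hi, e3]; exact q3 _ (ms i hi))
    · exact c2 _ (fun i j hij hj => by
        rw [e2 i (hij.trans hj), e2 j hj]; exact h.ss i j hij hj) (fun i hi => by
        rw [e2 i hi, e4]; exact r3 _ (ms' i hi))
    · exact c2 _ (fun i j hij hj => by
        rw [e2 i (hij.trans hj), e1 j hj]; exact h.p0 i j hij hj) (fun i hi => by
        rw [e2 i hi, e3]; exact q5 _ (ms i hi))
    · exact c2 _ (fun i j hij hj => by
        rw [e1 i (hij.trans hj), e2 i (hij.trans hj), e2 j hj]; exact h.sj i j hij hj)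
        (fun i hi => by
        rw [e1 i hi, e2 i hi, e4, r5 _ (mp' i hi)]; exact hu.2 i hi)

theorem exists_quadZ {ZZ : Set (HeightOneSpectrum (𝓞 K))} (hRi : Rich S ZZ) {D : K} (hok : S.Ok D Sg) (φ1 φ2 : SC L →+ ZMod 2)
    (X : Finset (HeightOneSpectrum (𝓞 K))) :
    ∃ (p1 p2 s1 s2 : Sp S Sg) (f1 f2 : SC L) (δ δ' : K), QuadD S D Sg φ1 φ2 p1 p2 s1 s2 f1 f2 ∧
      (p1.q ∈ ZZ ∧ p2.q ∈ ZZ ∧ s1.q ∈ ZZ ∧ s2.q ∈ ZZ) ∧
      p1.q ∉ X ∧ p2.q ∉ X ∧ s1.q ∉ X ∧ s2.q ∉ X ∧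
      Ray K (Sg : Set (HeightOneSpectrum (𝓞 K))) p1.q p2.q δ ∧
      Ray K (Sg : Set (HeightOneSpectrum (𝓞 K))) s1.q s2.q δ' := by
  obtain ⟨Tr, k, y, C, hC, col, hR, hcol⟩ := exists_ref S Sg hok.two
  obtain ⟨CK, hCK, rcK, hrc⟩ := exists_rc K Sg
  have _ : Finite (RG (K ≃ₐ[K] K)) := Hb_fin
  obtain ⟨uk, huk⟩ : ∃ uk : Sp S Sg → Tr → RG (K ≃ₐ[K] K), ∀ P P', uk P = uk P' →
      ∀ R : Sp S Sg, R.q ∈ Tr → R.fl (y P) = R.fl (y P') := by
    refine ⟨fun P q => if h : ∃ R : Sp S Sg, R.q = q then h.choose.fl (y P) else 0, ?_⟩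
    intro P P' h R hRq
    have h1 := congrFun h ⟨R.q, hRq⟩
    have hh : ∃ R' : Sp S Sg, R'.q = ((⟨R.q, hRq⟩ : Tr) : HeightOneSpectrum (𝓞 K)) := ⟨R, rfl⟩
    have h2 : hh.choose = R := Sp_eq hh.choose_spec
    change (if h : ∃ R' : Sp S Sg, R'.q = ((⟨R.q, hRq⟩ : Tr) : HeightOneSpectrum (𝓞 K)) then
      h.choose.fl (y P) else 0) = (if h : ∃ R' : Sp S Sg,
        R'.q = ((⟨R.q, hRq⟩ : Tr) : HeightOneSpectrum (𝓞 K)) then h.choose.fl (y P') else 0) at h1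
    rw [dif_pos hh, dif_pos hh, h2] at h1
    exact h1
  let co : Sp S Sg → C × CK × RG (K ≃ₐ[K] K) × (Tr → RG (K ≃ₐ[K] K)) := fun P =>
    (col P, rcK P.q, P.fl (y P), uk P)
  have _ : Fintype ((C × CK × RG (K ≃ₐ[K] K) × (Tr → RG (K ≃ₐ[K] K))) ×
    (C × CK × RG (K ≃ₐ[K] K) × (Tr → RG (K ≃ₐ[K] K)))) := Fintype.ofFinite _
  obtain ⟨N, hN⟩ : ∃ N : ℕ, Fintype.card ((C × CK × RG (K ≃ₐ[K] K) × (Tr → RG (K ≃ₐ[K] K))) ×
    (C × CK × RG (K ≃ₐ[K] K) × (Tr → RG (K ≃ₐ[K] K)))) < N := ⟨_, Nat.lt_succ_self _⟩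
  obtain ⟨p, s, h⟩ := HbZ_chain hRi hok hR X φ1 φ2 N
  obtain ⟨i, j, hij, hj, hco⟩ : ∃ i j, i < j ∧ j < N ∧ (co (p i), co (s i)) = (co (p j), co (s j)) := by
    obtain ⟨i, j, hne, he⟩ := Fintype.exists_ne_map_eq_of_card_lt
      (fun i : Fin N => (co (p i), co (s i))) (by rw [Fintype.card_fin]; exact hN)
    rcases lt_or_gt_of_ne hne with h1 | h1
    · exact ⟨i, j, h1, j.2, he⟩
    · exact ⟨j, i, h1, i.2, he.symm⟩
  have hi : i < N := hij.trans hj
  obtain ⟨hcp, hcs⟩ := Prod.mk.inj hco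
  obtain ⟨x1, x2⟩ := Prod.mk.inj hcp
  obtain ⟨x3, x4⟩ := Prod.mk.inj x2
  obtain ⟨x5, x6⟩ := Prod.mk.inj x4
  obtain ⟨z1, z2⟩ := Prod.mk.inj hcs
  obtain ⟨z3, z4⟩ := Prod.mk.inj z2
  obtain ⟨z5, z6⟩ := Prod.mk.inj z4
  have kp : k (p i) = k (p j) := hcol _ _ x1
  have ks : k (s i) = k (s j) := hcol _ _ z1
  obtain ⟨b1, b2, b3⟩ := Hb_pair hok hR (h.pT i hi) (h.pT j hj) (h.pp i j hij hj) kp
  obtain ⟨d1, d2, d3⟩ := Hb_pair hok hR (h.sT i hi) (h.sT j hj) (h.ss i j hij hj) ks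
  have g1 := Hb_rec hok hR (h.pT i hi) (h.pT j hj) (h.pp i j hij hj)
  have g2 := Hb_rec hok hR (h.pT j hj) (h.sT i hi) (Ne.symm (h.sp i j hij hj))
  have u1 : (k (p i)).fl (y (p i)) = (k (p i)).fl (y (p j)) := huk _ _ x6 _ (hR.kq _)
  have u2 : (k (s i)).fl (y (p i)) = (k (s i)).fl (y (p j)) := huk _ _ x6 _ (hR.kq _)
  obtain ⟨δ, hδ⟩ := hrc (p i).q (p j).q (p i).out (p j).out (h.pp i j hij hj) x3
  obtain ⟨δ', hδ'⟩ := hrc (s i).q (s j).q (s i).out (s j).out (h.ss i j hij hj) z3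
  refine ⟨p i, p j, s i, s j, y (p i) + y (p j), y (s i) + y (s j), δ, δ', ?_,
    ⟨(h.pX i hi).1, (h.pX j hj).1, (h.sX i hi).1, (h.sX j hj).1⟩, (h.pX i hi).2, (h.pX j hj).2,
    (h.sX i hi).2, (h.sX j hj).2, hδ, hδ'⟩
  constructor
  · exact h.pp i j hij hj
  · exact h.ss i j hij hj
  · exact h.ps i hi
  · exact h.psj i j hij hj
  · exact Ne.symm (h.sp i j hij hj)
  · exact h.ps j hj
  · exact fun x hx => ⟨h.pV i hi x hx, h.pV j hj x hx⟩
  · exact fun x hx => ⟨h.sV i hi x hx, h.sV j hj x hx⟩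
  · exact b1
  · exact d1
  · exact ⟨b2, b3⟩
  · exact ⟨d2, d3⟩
  · rw [(p i).fl_add hok.two, (p j).fl_add hok.two]
    have e1 : (p i).fl (y (p i)) = (p j).fl (y (p j)) := x5
    rw [← kp, ← u1] at g1
    have e2 := rg_two ((p j).fl (y (p j)))
    have e3 := rg_two ((k (p i)).fl (y (p i)))
    rw [e1]
    have e4 : (p j).fl (y (p i)) + (p i).fl (y (p j)) = 0 := by
      rw [add_assoc, e3, add_zero] at g1
      exact g1
    calc (p j).fl (y (p j)) + (p i).fl (y (p j)) + ((p j).fl (y (p i)) + (p j).fl (y (p j))) =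
        ((p j).fl (y (p i)) + (p i).fl (y (p j))) + ((p j).fl (y (p j)) + (p j).fl (y (p j))) := by
          abel
      _ = 0 := by rw [e4, e2, add_zero]
  · rw [(s i).fl_add hok.two, (s j).fl_add hok.two, h.s0 i hi, h.s0 j hj, h.sj i j hij hj]
    rw [h.p0 i j hij hj, ← u2, ← kp, add_zero] at g2
    calc 0 + (s i).fl (y (p j)) + (1 + (k (s i)).fl (y (p i)) + (k (p i)).fl (y (s i)) + 0) =
        ((s i).fl (y (p j)) + (k (s i)).fl (y (p i)) + (k (p i)).fl (y (s i))) + 1 := by abel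
      _ = 1 := by rw [g2, zero_add]

end H88OD
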