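import Pool.Agent.H88.ZR.Hb
import Pool.Agent.H88.OD.Gk

/-!
Project MP_78d38b_OD: the step over the base field with primes in a given set (version of Pool/Agent/H88/OD/Hc.lean).
-/

set_option autoImplicit false
set_option linter.unusedSectionVars false
open scoped Classical

open WithZero NumberField IsDedekindDomain H38RT
open H38T1 (SC sc scu rep eo la si OddP)
open H76PP (Cub LC ev scm dn)
open H26OD (Rich)

namespace H88OD

variable {K L : Type} [Field K] [NumberField K] [Field L]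
  [NumberField L] [Algebra K L] {a b : K} {θ : L} {S : Ext K K L a b θ}
  {Sg : Finset (HeightOneSpectrum (𝓞 K))}

private theorem HcZ_coeff (S : Ext K K L a b θ) (φ : SC L →+ ZMod 2) (x : SC L) (g : K ≃ₐ[K] K) :
    (S.el φ x).coeff g = φ x := by
  have h : g⁻¹ = 1 := Subsingleton.elim _ _
  unfold Ext.el
  rw [coeff_mk, h, map_one, one_smul]

private theorem HcZ_el0 {φ : SC L →+ ZMod 2} {x : SC L} (h : φ x = 0) : S.el φ x = 0 := by
  refine rg_ext fun g => ?_
  rw [HcZ_coeff, h]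
  rfl

private theorem HcZ_el1 {φ : SC L →+ ZMod 2} {x : SC L} (h : φ x = 1) : S.el φ x = 1 := by
  refine rg_ext fun g => ?_
  have hg : g = 1 := Subsingleton.elim _ _
  have h1 : (1 : RG (K ≃ₐ[K] K)) = MonoidAlgebra.single 1 1 := rfl
  rw [HcZ_coeff, h, h1, hg, MonoidAlgebra.coeff_single, Finsupp.single_eq_same]

private theorem HcZ_of_el {φ : SC L →+ ZMod 2} {x : SC L} (h : S.el φ x = 0) : φ x = 0 := by
  rw [← HcZ_coeff S φ x 1, h]
  rfl

private theorem HcZ_ord {v : HeightOneSpectrum (𝓞 K)} {x : K} (h : v.valuation K x = 1) :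
    ord (v.valuation K) x = 0 := by
  unfold ord
  rw [h, log_one, neg_zero]

private theorem HcZ_eq {G : Type} [Group G] {x y : RG G} (h : x + y = 0) : x = y := by
  have h2 := rg_two y
  calc x = x + (y + y) := by rw [h2, add_zero]
    _ = (x + y) + y := by rw [add_assoc]
    _ = y := by rw [h, zero_add]

private theorem HcZ_ray {p1 p2 s1 s2 : HeightOneSpectrum (𝓞 K)} {δ δ' : K}
    (n13 : p1 ≠ s1) (n14 : p1 ≠ s2) (n23 : p2 ≠ s1) (n24 : p2 ≠ s2)
    (r : Ray K (Sg : Set (HeightOneSpectrum (𝓞 K))) p1 p2 δ)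
    (r' : Ray K (Sg : Set (HeightOneSpectrum (𝓞 K))) s1 s2 δ') :
    RayT K Sg {p1, p2, s1, s2} (δ * δ') := by
  refine ⟨mul_ne_zero r.ne r'.ne, ?_, ?_, ?_, ?_⟩
  · intro q hq
    rw [Finset.mem_insert, Finset.mem_insert, Finset.mem_insert, Finset.mem_singleton] at hq
    rw [ord_mul r.ne r'.ne]
    rcases hq with h | h | h | h
    · rw [h, r.o1, HcZ_ord (r'.out _ n13 n14)]
      decide
    · rw [h, r.o2, HcZ_ord (r'.out _ n23 n24)]
      decide
    · rw [h, r'.o1, HcZ_ord (r.out _ n13.symm n23.symm)]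
      decide
    · rw [h, r'.o2, HcZ_ord (r.out _ n14.symm n24.symm)]
      decide
  · intro u hu
    rw [Finset.mem_insert, Finset.mem_insert, Finset.mem_insert, Finset.mem_singleton] at hu
    push Not at hu
    rw [map_mul, r.out u hu.1 hu.2.1, r'.out u hu.2.2.1 hu.2.2.2, one_mul]
  · intro u hu
    rw [map_mul]
    exact (r.sq u hu).mul (r'.sq u hu)
  · intro s
    rw [map_mul]
    exact mul_pos (r.pos s) (r'.pos s)

private theorem HcZ_rec {D : K} (hok : S.Ok D Sg) {p1 p2 s1 s2 : Sp S Sg} (n12 : p1.q ≠ p2.q)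
    (n34 : s1.q ≠ s2.q) (n13 : p1.q ≠ s1.q) (n14 : p1.q ≠ s2.q) (n23 : p2.q ≠ s1.q)
    (n24 : p2.q ≠ s2.q) {x y : SC L} (hx : S.Y D Sg {p1.q, p2.q, s1.q, s2.q} x)
    (hy : S.Y D Sg {p1.q, p2.q, s1.q, s2.q} y) :
    (p1.tr x * p1.fl y + p1.fl x * p1.tr y) + ((p2.tr x * p2.fl y + p2.fl x * p2.tr y) +
      ((s1.tr x * s1.fl y + s1.fl x * s1.tr y) + (s2.tr x * s2.fl y + s2.fl x * s2.tr y))) = 0 := by
  have e : (({p1, p2, s1, s2} : Finset (Sp S Sg)).image Sp.q) = {p1.q, p2.q, s1.q, s2.q} := by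
    rw [Finset.image_insert, Finset.image_insert, Finset.image_insert, Finset.image_singleton]
  have h := rec_fin hok {p1, p2, s1, s2} (x := x) (y := y) (by rw [e]; exact hx)
    (by rw [e]; exact hy)
  rw [Finset.sum_insert, Finset.sum_insert, Finset.sum_insert, Finset.sum_singleton] at h
  · exact h
  · rw [Finset.mem_singleton]
    intro h'
    exact n34 (by rw [h'])
  · rw [Finset.mem_insert, Finset.mem_singleton]
    rintro (h' | h')
    · exact n23 (by rw [h'])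
    · exact n24 (by rw [h'])
  · rw [Finset.mem_insert, Finset.mem_insert, Finset.mem_singleton]
    rintro (h' | h' | h')
    · exact n12 (by rw [h'])
    · exact n13 (by rw [h'])
    · exact n14 (by rw [h'])

private theorem HcZ_tr {D : K} (hok : S.Ok D Sg) {T : Finset (HeightOneSpectrum (𝓞 K))}
    {x : SC L} (hx : S.Y D Sg T x) (P : Sp S Sg) (hP : P.q ∉ T) : P.tr x = 0 := by
  refine (P.tr_zero hok.two hx.hh).2 fun w hw => hx.ev w ?_ ?_
  · rw [hw]
    exact P.out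
  · rw [hw]
    exact hP

private theorem HcZ_mem {ZZ : Set (HeightOneSpectrum (𝓞 K))}
    {q1 q2 q3 q4 : HeightOneSpectrum (𝓞 K)} (h1 : q1 ∈ ZZ) (h2 : q2 ∈ ZZ) (h3 : q3 ∈ ZZ)
    (h4 : q4 ∈ ZZ) : ∀ q ∈ ({q1, q2, q3, q4} : Finset (HeightOneSpectrum (𝓞 K))), q ∈ ZZ := by
  intro q hq
  rw [Finset.mem_insert, Finset.mem_insert, Finset.mem_insert, Finset.mem_singleton] at hq
  rcases hq with h | h | h | h
  · rw [h]; exact h1
  · rw [h]; exact h2
  · rw [h]; exact h3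
  · rw [h]; exact h4

theorem step_evenZ {ZZ : Set (HeightOneSpectrum (𝓞 K))} (hRi : Rich S ZZ) {D : K} (hok : S.Ok D Sg) (φ1 φ2 : SC L →+ ZMod 2)
    (h1 : ∃ x, S.V D x ∧ φ1 x = 1 ∧ φ2 x = 0) (h2 : ∃ x, S.V D x ∧ φ1 x = 0 ∧ φ2 x = 1) :
    ∃ (T : Finset (HeightOneSpectrum (𝓞 K))) (ε : K), (∀ q ∈ T, q ∈ ZZ) ∧ RayT K Sg T ε ∧ S.Ok (D * ε) (T ∪ Sg) ∧
      ∀ c, S.V (D * ε) c ↔ S.V D c ∧ φ1 c = 0 ∧ φ2 c = 0 := by
  obtain ⟨p1, p2, s1, s2, f1, f2, δ, δ', Q, ⟨z1', z2', z3', z4'⟩, -, -, -, -, r, r'⟩ :=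
    exists_quadZ hRi hok φ1 φ2 ∅
  have hR := HcZ_ray Q.n13 Q.n14 Q.n23 Q.n24 r r'
  refine ⟨{p1.q, p2.q, s1.q, s2.q}, δ * δ', HcZ_mem z1' z2' z3' z4', hR, OkT hok hR,
    fun z => ⟨fun hz => ?_, ?_⟩⟩
  · have hT1 : p1.q ∈ ({p1.q, p2.q, s1.q, s2.q} : Finset (HeightOneSpectrum (𝓞 K))) := by simp
    have hT2 : p2.q ∈ ({p1.q, p2.q, s1.q, s2.q} : Finset (HeightOneSpectrum (𝓞 K))) := by simp
    have hT3 : s1.q ∈ ({p1.q, p2.q, s1.q, s2.q} : Finset (HeightOneSpectrum (𝓞 K))) := by simp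
    have hT4 : s2.q ∈ ({p1.q, p2.q, s1.q, s2.q} : Finset (HeightOneSpectrum (𝓞 K))) := by simp
    have hY := stepT_Y hok hR hz
    have z1 := stepT_fl hok hR hz p1 hT1
    have z2 := stepT_fl hok hR hz p2 hT2
    have z3 := stepT_fl hok hR hz s1 hT3
    have z4 := stepT_fl hok hR hz s2 hT4
    have key : ∀ y, S.Y D Sg {p1.q, p2.q, s1.q, s2.q} y →
        p1.tr z * p1.fl y + (p2.tr z * p2.fl y + (s1.tr z * s1.fl y + s2.tr z * s2.fl y)) = 0 := by
      intro y hy
      have h := HcZ_rec hok Q.n12 Q.n34 Q.n13 Q.n14 Q.n23 Q.n24 hY hy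
      rwa [z1, z2, z3, z4, zero_mul, zero_mul, zero_mul, zero_mul, add_zero, add_zero, add_zero,
        add_zero] at h
    have hyV : ∀ x, S.V D x → S.Y D Sg {p1.q, p2.q, s1.q, s2.q} x := fun x hx =>
      Y_mono (Finset.empty_subset _) ((V_iff_Y S hok).1 hx)
    have hyf1 : S.Y D Sg {p1.q, p2.q, s1.q, s2.q} f1 := by
      refine Y_mono ?_ Q.y1
      intro q hq
      rw [Finset.mem_insert, Finset.mem_singleton] at hq
      rcases hq with h | h
      · rw [h]; exact hT1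
      · rw [h]; exact hT2
    have hyf2 : S.Y D Sg {p1.q, p2.q, s1.q, s2.q} f2 := by
      refine Y_mono ?_ Q.y2
      intro q hq
      rw [Finset.mem_insert, Finset.mem_singleton] at hq
      rcases hq with h | h
      · rw [h]; exact hT3
      · rw [h]; exact hT4
    have e12 : p1.tr z = p2.tr z := by
      obtain ⟨x, hx, hx1, hx2⟩ := h1
      have h := key x (hyV x hx)
      rw [(Q.v1 x hx).1, (Q.v1 x hx).2, (Q.v2 x hx).1, (Q.v2 x hx).2, HcZ_el1 hx1, HcZ_el0 hx2,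
        mul_one, mul_one, mul_zero, mul_zero, add_zero, add_zero] at h
      exact HcZ_eq h
    have e34 : s1.tr z = s2.tr z := by
      obtain ⟨x, hx, hx1, hx2⟩ := h2
      have h := key x (hyV x hx)
      rw [(Q.v1 x hx).1, (Q.v1 x hx).2, (Q.v2 x hx).1, (Q.v2 x hx).2, HcZ_el0 hx1, HcZ_el1 hx2,
        mul_one, mul_one, mul_zero, mul_zero, zero_add, zero_add] at h
      exact HcZ_eq h
    have key2 : ∀ y, S.Y D Sg {p1.q, p2.q, s1.q, s2.q} y →
        p1.tr z * (p1.fl y + p2.fl y) + s1.tr z * (s1.fl y + s2.fl y) = 0 := by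
      intro y hy
      have h := key y hy
      rw [← e12, ← e34, ← add_assoc, ← mul_add, ← mul_add] at h
      exact h
    have a3 : s1.tr z = 0 := by
      have h := key2 f1 hyf1
      rwa [Q.g1, Q.g2, mul_zero, zero_add, mul_one] at h
    have hf : p1.fl f2 + p2.fl f2 = 1 := by
      have m1 : p1.q ∉ ({s1.q, s2.q} : Finset (HeightOneSpectrum (𝓞 K))) := by
        rw [Finset.mem_insert, Finset.mem_singleton]
        rintro (h | h)
        · exact Q.n13 h
        · exact Q.n14 h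
      have m2 : p2.q ∉ ({s1.q, s2.q} : Finset (HeightOneSpectrum (𝓞 K))) := by
        rw [Finset.mem_insert, Finset.mem_singleton]
        rintro (h | h)
        · exact Q.n23 h
        · exact Q.n24 h
      have m3 : s1.q ∉ ({p1.q, p2.q} : Finset (HeightOneSpectrum (𝓞 K))) := by
        rw [Finset.mem_insert, Finset.mem_singleton]
        rintro (h | h)
        · exact Q.n13 h.symm
        · exact Q.n23 h.symm
      have m4 : s2.q ∉ ({p1.q, p2.q} : Finset (HeightOneSpectrum (𝓞 K))) := by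
        rw [Finset.mem_insert, Finset.mem_singleton]
        rintro (h | h)
        · exact Q.n14 h.symm
        · exact Q.n24 h.symm
      have h := HcZ_rec hok Q.n12 Q.n34 Q.n13 Q.n14 Q.n23 Q.n24 hyf1 hyf2
      rw [Q.t1.1, Q.t1.2, Q.t2.1, Q.t2.2, HcZ_tr hok Q.y2 p1 m1, HcZ_tr hok Q.y2 p2 m2,
        HcZ_tr hok Q.y1 s1 m3, HcZ_tr hok Q.y1 s2 m4, one_mul, one_mul, mul_zero, mul_zero,
        zero_mul, zero_mul, mul_one, mul_one, add_zero, add_zero, zero_add, zero_add, Q.g2,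
        ← add_assoc] at h
      exact HcZ_eq h
    have a1 : p1.tr z = 0 := by
      have h := key2 f2 hyf2
      rwa [hf, a3, zero_mul, add_zero, mul_one] at h
    have a2 : p2.tr z = 0 := by rw [← e12, a1]
    have a4 : s2.tr z = 0 := by rw [← e34, a3]
    have hV : S.V D z := by
      refine (V_iff_Y S hok).2 ⟨hY.hh, hY.fin, hY.inf, fun w hw _ => ?_⟩
      by_cases hT : dn K (dn K w) ∈ ({p1.q, p2.q, s1.q, s2.q} : Finset (HeightOneSpectrum (𝓞 K)))
      · rw [Finset.mem_insert, Finset.mem_insert, Finset.mem_insert, Finset.mem_singleton] at hT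
        rcases hT with h | h | h | h
        · exact (p1.tr_zero hok.two hY.hh).1 a1 w h
        · exact (p2.tr_zero hok.two hY.hh).1 a2 w h
        · exact (s1.tr_zero hok.two hY.hh).1 a3 w h
        · exact (s2.tr_zero hok.two hY.hh).1 a4 w h
      · exact hY.ev w hw hT
    refine ⟨hV, HcZ_of_el (S := S) ?_, HcZ_of_el (S := S) ?_⟩
    · rw [← (Q.v1 z hV).1, z1]
    · rw [← (Q.v2 z hV).1, z3]
  · rintro ⟨hV, hz1, hz2⟩
    refine stepT_mpr hok hR hV fun q hq => ?_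
    rw [Finset.mem_insert, Finset.mem_insert, Finset.mem_insert, Finset.mem_singleton] at hq
    rcases hq with h | h | h | h
    · exact ⟨p1, h.symm, by rw [(Q.v1 z hV).1, HcZ_el0 hz1]⟩
    · exact ⟨p2, h.symm, by rw [(Q.v1 z hV).2, HcZ_el0 hz1]⟩
    · exact ⟨s1, h.symm, by rw [(Q.v2 z hV).1, HcZ_el0 hz2]⟩
    · exact ⟨s2, h.symm, by rw [(Q.v2 z hV).2, HcZ_el0 hz2]⟩

end H88OD
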