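import Pool.Agent.H88.ZR.Fj
import Pool.Agent.H88.ZC.Ii

/-!
Project MP_78d38b_OD: the parity of the two-Selmer rank and the real places, for finitely many curves.
-/

set_option autoImplicit false
set_option linter.unusedSectionVars false
open scoped Classical

open WithZero NumberField IsDedekindDomain H38RT
open H38T1 (SC sc scu rep eo la si OddP)
open H76PP (Cub LC ev scm dn SelTriv Tf_twist)
open H30ZO (Tv Wc RealAt)
open H26OD (Rich Zs Pk dd3)
open H36CY (Stb DescAt)

namespace H88OD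

/-- The two-Selmer rank of `E_D` over `K` is even. -/
def Ev {K : Type} [Field K] [NumberField K] (a b D : K) : Prop :=
  ∃ k : ℕ, selCard K (D ^ 2 * a) (D ^ 3 * b) = 4 ^ k

/-- **(P)** The parity does not change. -/
theorem par_tw {K L : Type} [Field K] [NumberField K] [Field L] [NumberField L] [Algebra K L]
    {a b : K} {θ : L} (S : Ext K K L a b θ) {D0 D : K} {Sg : Finset (HeightOneSpectrum (𝓞 K))}
    (hok : S.Ok D0 Sg) (h : Rel K Sg D0 D) : Ev a b D0 ↔ Ev a b D := by
  sorry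

/-- The real places, for finitely many curves with the same parity. -/
theorem real_J {K N : Type} [Field K] [NumberField K] [Field N]
    [NumberField N] [Algebra K N] [hgN : IsGalois K N] {ι : Type} [Fintype ι]
    [Nonempty ι] {a b : ι → 𝓞 K}
    (hir : ∀ (j : ι) (t : K), t ^ 3 + (a j : K) * t + (b j : K) ≠ 0)
    (hsq : ∀ j, ¬ IsSquare (algebraMap K N (dd3 (a j : K) (b j : K))))
    {D0 : K} (hD0 : D0 ≠ 0)
    (hpar : ∀ i j, Ev (a i : K) (b i : K) D0 ↔ Ev (a j : K) (b j : K) D0)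
    {s0 : K →+* ℝ} (hs0 : ∃ s' : N →+* ℝ, ∀ x : K, s' (algebraMap K N x) = s0 x)
    (hdesc : ∀ j v, DescAt K N v (D0 ^ 2 * (a j : K)) (D0 ^ 3 * (b j : K)))
    (Sg : Finset (HeightOneSpectrum (𝓞 K))) :
    ∃ δ : K, δ ≠ 0 ∧ (∀ u ∈ Sg, IsSquare (algebraMap K (u.adicCompletion K) δ)) ∧
      (∀ s : K →+* ℝ, s ≠ s0 → 0 < s δ) ∧ (∀ j, Ev (a j : K) (b j : K) (D0 * δ)) ∧
      ∀ j v, DescAt K N v ((D0 * δ) ^ 2 * (a j : K)) ((D0 * δ) ^ 3 * (b j : K)) := by
  by_cases hall : ∀ j, Ev (a j : K) (b j : K) D0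
  · refine ⟨1, one_ne_zero, fun u _ => ⟨1, by rw [map_one, one_mul]⟩, fun s _ => ?_, ?_, ?_⟩
    · rw [map_one]
      exact one_pos
    · rw [mul_one]
      exact hall
    · rw [mul_one]
      exact hdesc
  have hno : ∀ j, ¬ Ev (a j : K) (b j : K) D0 := by
    intro j hj
    exact hall fun i => (hpar i j).2 hj
  have hsqK : ∀ j, ¬ IsSquare (dd3 (a j : K) (b j : K)) := fun j h => hsq j (h.map (algebraMap K N))
  have hoddK : Odd (Module.finrank K K) := by
    rw [Module.finrank_self]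
    exact odd_one
  have p0 : ∀ j, Pk K K (a j : K) (b j : K) := fun j =>
    (H26OD.exists_pk hoddK (a j) (b j) (hir j) (hsqK j)).some
  obtain ⟨Sg1, hle, hok⟩ := H26OD.ok_all p0 hD0 Sg
  obtain ⟨Sr, hSr⟩ : ∃ Sr : Finset (HeightOneSpectrum (𝓞 K)), ∀ V : HeightOneSpectrum (𝓞 N),
      H73P2.Ram K V → dn K V ∈ Sr := by
    refine ⟨((H30PN.ram_fin K N).image (dn K)).toFinset, fun V hV => ?_⟩
    rw [Set.Finite.mem_toFinset]
    exact ⟨V, hV, rfl⟩
  obtain ⟨i0⟩ := ‹Nonempty ι›
  obtain ⟨δ, h1, h2, h3, h4, h5⟩ := H88ZC.exists_even_tw (p0 i0).S N (hsq i0) hs0 hD0 (Sg1 ∪ Sr)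
  have hD1 : D0 * δ ≠ 0 := mul_ne_zero hD0 h1
  refine ⟨δ, h1, fun u hu => h2 u (Finset.mem_union_left _ (hle hu)), h3, fun j => ?_, fun j v => ?_⟩
  · -- the other curves
    have hneg : ∀ (i : ι) (ε : K), ε ≠ 0 →
        (∀ u ∈ Sg1, IsSquare (algebraMap K (u.adicCompletion K) ε)) →
        (∀ s : K →+* ℝ, s ≠ s0 → 0 < s ε) → Ev (a i : K) (b i : K) (D0 * ε) → s0 ε < 0 := by
      intro i ε e1 e2 e3 e4
      by_contra hpos
      have hpos' : 0 < s0 ε := lt_of_le_of_ne (not_lt.1 hpos) fun h => e1 (by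
        rw [← map_eq_zero s0, ← h])
      apply hno i
      have e : D0 * ε / D0 = ε := mul_div_cancel_left₀ _ hD0
      refine (par_tw (p0 i).S (hok i) (D := D0 * ε) ⟨hD0, mul_ne_zero hD0 e1, fun v hv => ?_,
        fun s => ?_⟩).2 e4
      · rw [e]
        exact e2 v hv
      · rw [e]
        by_cases hs : s = s0
        · rw [hs]
          exact hpos'
        · exact e3 s hs
    have hδ := hneg i0 δ h1 (fun u hu => h2 u (Finset.mem_union_left _ hu)) h3 h5
    obtain ⟨Sg2, hle2, hok2⟩ := H26OD.ok_all p0 hD1 Sg1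
    obtain ⟨ε, g1, g2, g3, g4, g5⟩ := H88ZC.exists_even_tw (p0 j).S N (hsq j) hs0 hD1 Sg2
    have hεpos : 0 < s0 ε := by
      by_contra hpos
      have hneg' : s0 ε < 0 := lt_of_le_of_ne (not_lt.1 hpos) fun h => g1 (by
        rw [← map_eq_zero s0, h])
      have h6 := hneg j (δ * ε) (mul_ne_zero h1 g1) (fun u hu => by
        rw [map_mul]
        exact (h2 u (Finset.mem_union_left _ hu)).mul (g2 u (hle2 hu))) (fun s hs => by
        rw [map_mul]
        exact mul_pos (h3 s hs) (g3 s hs)) (by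
        rw [← mul_assoc]
        exact g5)
      rw [map_mul] at h6
      exact absurd (mul_pos_of_neg_of_neg hδ hneg') (not_lt.2 h6.le)
    have e : D0 * δ * ε / (D0 * δ) = ε := mul_div_cancel_left₀ _ hD1
    refine (par_tw (p0 j).S (hok2 j) (D := D0 * δ * ε) ⟨hD1, mul_ne_zero hD1 g1, fun v hv => ?_,
      fun s => ?_⟩).2 g5
    · rw [e]
      exact g2 v hv
    · rw [e]
      by_cases hs : s = s0
      · rw [hs]
        exact hεpos
      · exact g3 s hs
  · refine H38OD.descAt_transfer (fun v => v.valuation_le_one (a j))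
      (fun v => v.valuation_le_one (b j)) (H26OD.noroot_N (hir j) (hsq j)) hD0 h1 (hdesc j)
      (fun u => ?_) v
    rcases h4 u with h6 | h6 | h6
    · exact Or.inl h6
    · exact Or.inr (Or.inl h6)
    · by_cases hu : u ∈ Sg1 ∪ Sr
      · exact Or.inr (Or.inl (h2 u hu))
      · refine Or.inr (Or.inr ⟨h6, ?_, ?_, ?_, ?_⟩)
        · exact (hok j).two u fun h => hu (Finset.mem_union_left _ h)
        · exact (hok j).dis u fun h => hu (Finset.mem_union_left _ h)
        · exact (hok j).val u fun h => hu (Finset.mem_union_left _ h)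
        · intro V hV hR
          exact hu (Finset.mem_union_right _ (hV ▸ hSr V hR))

end H88OD
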